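import Pool.Agent.Helper43.BL.L1

open scoped ENNReal Topology

namespace Pool.Agent.Helper43.BL

section General

variable {E : Type} [BanachLattice E]

lemma smul_mono {r : ℝ} (hr : 0 ≤ r) {x y : E} (h : x ≤ y) : r • x ≤ r • y := by
  have h1 : 0 ≤ r • (y - x) := BanachLattice.smul_nonneg' r _ hr (sub_nonneg.2 h)
  rw [smul_sub] at h1
  exact sub_nonneg.1 h1

lemma smul_mono_left {r s : ℝ} (hrs : r ≤ s) {x : E} (hx : 0 ≤ x) : r • x ≤ s • x := by
  have h1 : 0 ≤ (s - r) • x := BanachLattice.smul_nonneg' _ _ (sub_nonneg.2 hrs) hx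
  rw [sub_smul] at h1
  exact sub_nonneg.1 h1

lemma smul_inf {r : ℝ} (hr : 0 ≤ r) (x y : E) : r • (x ⊓ y) = (r • x) ⊓ (r • y) := by
  rcases hr.eq_or_lt with rfl | hr'
  · simp
  · apply le_antisymm
    · exact le_inf (smul_mono hr inf_le_left) (smul_mono hr inf_le_right)
    · have h1 : r⁻¹ • ((r • x) ⊓ (r • y)) ≤ x ⊓ y := by
        apply le_inf
        · have := smul_mono (inv_nonneg.2 hr) (inf_le_left : (r • x) ⊓ (r • y) ≤ r • x)
          rwa [smul_smul, inv_mul_cancel₀ hr'.ne', one_smul] at this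
        · have := smul_mono (inv_nonneg.2 hr) (inf_le_right : (r • x) ⊓ (r • y) ≤ r • y)
          rwa [smul_smul, inv_mul_cancel₀ hr'.ne', one_smul] at this
      have h2 := smul_mono hr h1
      rwa [smul_smul, mul_inv_cancel₀ hr'.ne', one_smul] at h2

lemma smul_sup {r : ℝ} (hr : 0 ≤ r) (x y : E) : r • (x ⊔ y) = (r • x) ⊔ (r • y) := by
  rcases hr.eq_or_lt with rfl | hr'
  · simp
  · apply le_antisymm
    · have h1 : x ⊔ y ≤ r⁻¹ • ((r • x) ⊔ (r • y)) := by
        apply sup_le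
        · have := smul_mono (inv_nonneg.2 hr) (le_sup_left : r • x ≤ (r • x) ⊔ (r • y))
          rwa [smul_smul, inv_mul_cancel₀ hr'.ne', one_smul] at this
        · have := smul_mono (inv_nonneg.2 hr) (le_sup_right : r • y ≤ (r • x) ⊔ (r • y))
          rwa [smul_smul, inv_mul_cancel₀ hr'.ne', one_smul] at this
      have h2 := smul_mono hr h1
      rwa [smul_smul, mul_inv_cancel₀ hr'.ne', one_smul] at h2
    · exact sup_le (smul_mono hr le_sup_left) (smul_mono hr le_sup_right)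

lemma abs_smul_nonneg {r : ℝ} (hr : 0 ≤ r) (x : E) : |r • x| = r • |x| := by
  rw [abs, abs, smul_sup hr, smul_neg]

lemma abs_smul' (r : ℝ) (x : E) : |r • x| = |r| • |x| := by
  rcases le_total 0 r with h | h
  · rw [abs_smul_nonneg h, abs_of_nonneg h]
  · rw [abs_of_nonpos h, ← abs_smul_nonneg (neg_nonneg.2 h), neg_smul, abs_neg]

lemma inf_add_le {y a b : E} (hy : 0 ≤ y) (ha : 0 ≤ a) (hb : 0 ≤ b) :
    y ⊓ (a + b) ≤ y ⊓ a + y ⊓ b := by
  rw [add_inf, inf_add, inf_add]
  refine le_inf (le_inf ?_ ?_) (le_inf ?_ ?_)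
  · exact inf_le_left.trans (le_add_of_nonneg_right hy)
  · exact inf_le_left.trans (le_add_of_nonneg_left ha)
  · exact inf_le_left.trans (le_add_of_nonneg_right hb)
  · exact inf_le_right

/-- closed ideal criterion for infinite sums -/
lemma inf_hasSum_mem {K : Submodule ℝ E} (hK : IsClosedIdeal K) {y : E} (hy : 0 ≤ y) {x : ℕ → E}
    {X : E} (hX : HasSum x X) (hx : ∀ i, 0 ≤ x i) (h : ∀ i, y ⊓ x i ∈ K) : y ⊓ X ∈ K := by
  classical
  have hfin : ∀ s : Finset ℕ, 0 ≤ ∑ i ∈ s, x i ∧ y ⊓ ∑ i ∈ s, x i ∈ K := by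
    intro s
    induction s using Finset.induction_on with
    | empty =>
      refine ⟨by simp, ?_⟩
      rw [Finset.sum_empty, inf_eq_right.2 hy]
      exact K.zero_mem
    | insert a s ha ih =>
      rw [Finset.sum_insert ha]
      refine ⟨add_nonneg (hx a) ih.1, ?_⟩
      apply hK.solid _ _ (K.add_mem (h a) ih.2)
      rw [abs_of_nonneg (le_inf hy (add_nonneg (hx a) ih.1)),
        abs_of_nonneg (add_nonneg (le_inf hy (hx a)) (le_inf hy ih.1))]
      exact inf_add_le hy (hx a) ih.1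
  have ht : Filter.Tendsto (fun s : Finset ℕ => y ⊓ ∑ i ∈ s, x i) Filter.atTop (𝓝 (y ⊓ X)) :=
    Filter.Tendsto.inf_nhds tendsto_const_nhds hX
  exact hK.isClosed.mem_of_tendsto ht (Filter.Eventually.of_forall fun s => (hfin s).2)

lemma inf_smul_mem {K : Submodule ℝ E} (hK : IsClosedIdeal K) {y z : E} (hy : 0 ≤ y) (hz : 0 ≤ z)
    (h : y ⊓ z ∈ K) {r : ℝ} (hr : 0 ≤ r) : y ⊓ (r • z) ∈ K := by
  apply hK.solid _ _ (K.smul_mem (max 1 r) h)
  have h1 : (0 : ℝ) ≤ max 1 r := le_trans zero_le_one (le_max_left _ _)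
  have h2 : 0 ≤ r • z := BanachLattice.smul_nonneg' _ _ hr hz
  rw [abs_of_nonneg (le_inf hy h2), abs_smul_nonneg h1, abs_of_nonneg (le_inf hy hz), smul_inf h1]
  refine inf_le_inf ?_ (smul_mono_left (le_max_right _ _) hz)
  calc y = (1 : ℝ) • y := (one_smul _ _).symm
    _ ≤ max 1 r • y := smul_mono_left (le_max_left _ _) hy

lemma bot_closedIdeal : IsClosedIdeal (⊥ : Submodule ℝ E) where
  isClosed := by
    rw [Submodule.bot_coe]
    exact isClosed_singleton
  solid a b ha hb := by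
    rw [Submodule.mem_bot] at ha ⊢
    rw [ha, abs_zero] at hb
    have h1 := le_antisymm hb (abs_nonneg b)
    have h2 := norm_abs_eq_norm b
    rw [h1, norm_zero] at h2
    exact norm_eq_zero.1 h2.symm

lemma inf_hasSum_zero {y : E} (hy : 0 ≤ y) {x : ℕ → E}
    {X : E} (hX : HasSum x X) (hx : ∀ i, 0 ≤ x i) (h : ∀ i, y ⊓ x i = 0) : y ⊓ X = 0 := by
  have := inf_hasSum_mem (bot_closedIdeal (E := E)) hy hX hx (fun i => by
    rw [Submodule.mem_bot]; exact h i)
  rwa [Submodule.mem_bot] at this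

lemma mkQ_abs_sub {K : Submodule ℝ E} (hK : IsClosedIdeal K) {x y : E} (h : K.mkQ x = K.mkQ y) :
    K.mkQ |x| = K.mkQ |y| := by
  have h1 : x - y ∈ K := by
    rw [← Submodule.Quotient.mk_eq_zero K, Submodule.Quotient.mk_sub]
    exact sub_eq_zero.2 h
  have h2 : |x| - |y| ∈ K := by
    refine hK.solid _ _ h1 ?_
    exact abs_abs_sub_abs_le x y
  have h3 : K.mkQ (|x| - |y|) = 0 := (Submodule.Quotient.mk_eq_zero K).2 h2
  rwa [map_sub, sub_eq_zero] at h3

/-- composition of a lattice homomorphism with a quotient map -/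
lemma isLatticeHomToQuotient_comp {A : Type} [BanachLattice A] {K : Submodule ℝ E}
    (hK : IsClosedIdeal K) (T : A →L[ℝ] E ⧸ K) (S : A → E) (hTS : ∀ a, T a = K.mkQ (S a))
    (hS : ∀ a, S |a| = |S a|) : IsLatticeHomToQuotient K T := by
  intro a x hx
  rw [hTS] at hx ⊢
  rw [hS]
  exact mkQ_abs_sub hK hx

/-- the closure of an increasing union of closed ideals is a closed ideal -/
lemma closure_ideal {I : ℕ → Submodule ℝ E} (hI : ∀ n, IsClosedIdeal (I n)) (hmono : Monotone I) :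
    IsClosedIdeal (⨆ n, I n).topologicalClosure where
  isClosed := Submodule.isClosed_topologicalClosure _
  solid a b ha hb := by
    have ha' : a ∈ closure ((⨆ n, I n : Submodule ℝ E) : Set E) := ha
    show b ∈ closure ((⨆ n, I n : Submodule ℝ E) : Set E)
    rw [mem_closure_iff_seq_limit] at ha' ⊢
    obtain ⟨u, hu, hlim⟩ := ha'
    refine ⟨fun m => (b ⊓ |u m|) ⊔ (-|u m|), ?_, ?_⟩
    · intro m
      have h1 : u m ∈ (⨆ n, I n : Submodule ℝ E) := hu m
      rw [Submodule.mem_iSup_of_directed I hmono.directed_le] at h1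
      obtain ⟨n, hn⟩ := h1
      apply Submodule.mem_iSup_of_mem n
      apply (hI n).solid _ _ hn
      have h0 : 0 ≤ |u m| := abs_nonneg _
      show |(b ⊓ |u m|) ⊔ (-|u m|)| ≤ |u m|
      apply abs_le'.2
      refine ⟨sup_le inf_le_right ((neg_nonpos.2 h0).trans h0), ?_⟩
      exact neg_le.1 le_sup_right
    · have habs : Filter.Tendsto (fun m => |u m|) Filter.atTop (𝓝 |a|) := by
        have : Filter.Tendsto (fun m => u m ⊔ -u m) Filter.atTop (𝓝 (a ⊔ -a)) :=
          Filter.Tendsto.sup_nhds hlim hlim.neg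
        exact this
      have h2 : Filter.Tendsto (fun m => (b ⊓ |u m|) ⊔ (-|u m|)) Filter.atTop
          (𝓝 ((b ⊓ |a|) ⊔ (-|a|))) :=
        Filter.Tendsto.sup_nhds (Filter.Tendsto.inf_nhds tendsto_const_nhds habs) habs.neg
      have h3 : (b ⊓ |a|) ⊔ (-|a|) = b := by
        have h4 := abs_le'.1 hb
        rw [inf_eq_left.2 h4.1, sup_eq_left.2 (neg_le.1 h4.2)]
      rwa [h3] at h2

end General

end Pool.Agent.Helper43.BL
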