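import Mathlib

namespace Pool.Agent.Helper43.BL

/-- A real Banach lattice: a complete real normed space which is a vector lattice and whose norm
satisfies `|x| ≤ |y| → ‖x‖ ≤ ‖y‖`. -/
class BanachLattice (E : Type) extends NormedAddCommGroup E, NormedSpace ℝ E, Lattice E,
    IsOrderedAddMonoid E, HasSolidNorm E, CompleteSpace E where
  smul_nonneg' : ∀ (r : ℝ) (x : E), 0 ≤ r → 0 ≤ x → 0 ≤ r • x

section

variable {A E : Type} [BanachLattice A] [BanachLattice E]

/-- `J` is a closed ideal of the Banach lattice `E`. -/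
structure IsClosedIdeal (J : Submodule ℝ E) : Prop where
  isClosed : IsClosed (J : Set E)
  solid : ∀ a b : E, a ∈ J → |b| ≤ |a| → b ∈ J

/-- `T : A → E / J` is a lattice homomorphism of norm at most `C` into the quotient Banach lattice
`E / J`, in which the modulus of the class of `x` is the class of `|x|`. -/
structure IsQuotientHom (J : Submodule ℝ E) (C : ℝ) (T : A → E ⧸ J) : Prop where
  map_add : ∀ a b, T (a + b) = T a + T b
  map_smul : ∀ (r : ℝ) a, T (r • a) = r • T a
  map_abs : ∀ a x, T a = Submodule.Quotient.mk x → T |a| = Submodule.Quotient.mk |x|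
  norm_le : ∀ a, ‖T a‖ ≤ C * ‖a‖

/-- The closure of the union of an increasing sequence of subspaces. -/
def closureUnion (I : ℕ → Submodule ℝ E) : Submodule ℝ E := (⨆ n, I n).topologicalClosure

/-- `ψ : A → E / J` lifts `φ : A → E / K`: the canonical map `E / J → E / K` takes `ψ a`
to `φ a`. -/
def IsLift (J K : Submodule ℝ E) (ψ : A → E ⧸ J) (φ : A → E ⧸ K) : Prop :=
  ∀ a x, ψ a = Submodule.Quotient.mk x → φ a = Submodule.Quotient.mk x

end

/-- Semiprojective Banach lattices. -/
def Semiprojective (A : Type) [BanachLattice A] : Prop :=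
  ∀ (E : Type) [BanachLattice E] [TopologicalSpace.SeparableSpace E] (I : ℕ → Submodule ℝ E),
    (∀ n, IsClosedIdeal (I n)) → Monotone I →
    ∀ φ : A → E ⧸ closureUnion I, IsQuotientHom (closureUnion I) 1 φ →
      ∃ n, ∀ ε : ℝ, 0 < ε → ∃ ψ : A → E ⧸ I n, IsQuotientHom (I n) (1 + ε) ψ ∧
        IsLift (I n) (closureUnion I) ψ φ

/-- Linear maps between Banach lattices preserving the modulus. -/
structure IsLatticeHom {A B : Type} [BanachLattice A] [BanachLattice B] (T : A → B) : Prop where
  map_add : ∀ a b, T (a + b) = T a + T b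
  map_smul : ∀ (r : ℝ) a, T (r • a) = r • T a
  map_abs : ∀ a, T |a| = |T a|

/-- `0 → J → A → B → 0` is a short exact sequence of Banach lattices: `i` is an isometric lattice
homomorphism onto the kernel of the surjective lattice homomorphism `q`, and `B` carries the
quotient norm. -/
structure IsShortExact {J A B : Type} [BanachLattice J] [BanachLattice A] [BanachLattice B]
    (i : J → A) (q : A → B) : Prop where
  i_hom : IsLatticeHom i
  q_hom : IsLatticeHom q
  i_norm : ∀ x, ‖i x‖ = ‖x‖
  q_surjective : Function.Surjective q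
  exact : ∀ a, q a = 0 ↔ ∃ x, i x = a
  q_norm : ∀ a, ‖q a‖ = ⨅ x : J, ‖a + i x‖

end Pool.Agent.Helper43.BL
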