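import Pool.Agent.Helper43.BL.Old

open scoped ENNReal

namespace Pool.Agent.Helper43.BL

/-- the space of absolutely summable real sequences -/
abbrev L1 : Type := lp (fun _ : ℕ => ℝ) 1

lemma one_toReal_pos : (0 : ℝ) < (1 : ℝ≥0∞).toReal := by norm_num

lemma memL1_iff {f : ℕ → ℝ} : Memℓp f 1 ↔ Summable fun n => |f n| := by
  rw [memℓp_gen_iff one_toReal_pos]
  simp

lemma memL1_of_abs_le {f g : ℕ → ℝ} (hg : Memℓp g 1) (h : ∀ n, |f n| ≤ |g n|) : Memℓp f 1 := by
  rw [memL1_iff] at hg ⊢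
  exact Summable.of_nonneg_of_le (fun n => abs_nonneg _) h hg

lemma memL1_of_abs_le_add {f g h : ℕ → ℝ} (hg : Memℓp g 1) (hh : Memℓp h 1)
    (hle : ∀ n, |f n| ≤ |g n| + |h n|) : Memℓp f 1 := by
  rw [memL1_iff] at hg hh ⊢
  exact Summable.of_nonneg_of_le (fun n => abs_nonneg _) hle (hg.add hh)

lemma L1_norm (f : L1) : ‖f‖ = ∑' n, |f n| := by
  rw [lp.norm_eq_tsum_rpow one_toReal_pos]
  simp

lemma L1_summable (f : L1) : Summable fun n => |f n| := memL1_iff.1 (lp.memℓp f)

noncomputable instance : Lattice L1 where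
  le f g := ∀ n, f n ≤ g n
  le_refl f n := le_rfl
  le_trans f g h h1 h2 n := (h1 n).trans (h2 n)
  le_antisymm f g h1 h2 := lp.ext (funext fun n => le_antisymm (h1 n) (h2 n))
  sup f g := ⟨fun n => f n ⊔ g n, memL1_of_abs_le_add (lp.memℓp f) (lp.memℓp g) (fun n => by
    rcases le_total (f n) (g n) with h | h
    · rw [sup_eq_right.2 h]; linarith [abs_nonneg (f n)]
    · rw [sup_eq_left.2 h]; linarith [abs_nonneg (g n)])⟩
  le_sup_left f g n := le_sup_left
  le_sup_right f g n := le_sup_right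
  sup_le f g h h1 h2 n := sup_le (h1 n) (h2 n)
  inf f g := ⟨fun n => f n ⊓ g n, memL1_of_abs_le_add (lp.memℓp f) (lp.memℓp g) (fun n => by
    rcases le_total (f n) (g n) with h | h
    · rw [inf_eq_left.2 h]; linarith [abs_nonneg (g n)]
    · rw [inf_eq_right.2 h]; linarith [abs_nonneg (f n)])⟩
  inf_le_left f g n := inf_le_left
  inf_le_right f g n := inf_le_right
  le_inf f g h h1 h2 n := le_inf (h1 n) (h2 n)

lemma L1_le_iff {f g : L1} : f ≤ g ↔ ∀ n, f n ≤ g n := Iff.rfl

lemma L1_abs_apply (f : L1) (n : ℕ) : (|f| : L1) n = |f n| := rfl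

instance : IsOrderedAddMonoid L1 where
  add_le_add_left f g h k n := by
    have := h n
    show f n + k n ≤ g n + k n
    linarith

noncomputable instance : BanachLattice L1 where
  solid f g h := by
    rw [L1_norm, L1_norm]
    exact (L1_summable f).tsum_le_tsum (fun n => h n) (L1_summable g)
  smul_nonneg' r f hr hf n := mul_nonneg hr (hf n)

end Pool.Agent.Helper43.BL
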