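import Pool.Agent.Helper43.BL.Space

open scoped ENNReal Topology unitInterval
open TopologicalSpace

namespace Pool.Agent.Helper43.BL

/-- first coordinate -/
def p1 (x : RE) : C(I, ℝ) := Prod.fst (α := C(I, ℝ)) (β := L1) x

/-- second coordinate -/
def p2 (x : RE) : L1 := Prod.snd (α := C(I, ℝ)) (β := L1) x

/-- pairing -/
def mkRE (f : C(I, ℝ)) (c : L1) : RE := ((f, c) : F0)

lemma p1_abs (x : RE) (s : I) : p1 |x| s = |p1 x s| := rfl
lemma p2_abs (x : RE) (k : ℕ) : p2 |x| k = |p2 x k| := rfl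
lemma p1_sub (x y : RE) (s : I) : p1 (x - y) s = p1 x s - p1 y s := rfl
lemma p2_sub (x y : RE) (k : ℕ) : p2 (x - y) k = p2 x k - p2 y k := rfl
lemma p1_add (x y : RE) (s : I) : p1 (x + y) s = p1 x s + p1 y s := rfl
lemma p2_add (x y : RE) (k : ℕ) : p2 (x + y) k = p2 x k + p2 y k := rfl

lemma cont_p1 (s : I) : Continuous fun x : RE => p1 x s := by
  have h : Continuous fun x : RE => ((idE.symm x : F0).1 : C(I, ℝ)) s :=
    (continuous_eval_const s).comp (continuous_fst.comp idE.symm.continuous)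
  exact h

lemma cont_p2 (k : ℕ) : Continuous fun x : RE => p2 x k := by
  have h1 : Continuous fun x : RE => ((idE.symm x : F0).2 : L1) :=
    continuous_snd.comp idE.symm.continuous
  have h2 : Continuous fun c : L1 => c k := (lp.evalCLM ℝ (fun _ : ℕ => ℝ) 1 k).continuous
  exact h2.comp h1

/-- the ideals -/
noncomputable def In (n : ℕ) : Submodule ℝ RE where
  carrier := {x | (∀ k, p2 x k = 0) ∧ ∀ s : I, (s : ℝ) * ((n : ℝ) + 1) ≤ 1 → p1 x s = 0}
  add_mem' := by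
    rintro x y ⟨h1, h2⟩ ⟨h3, h4⟩
    refine ⟨fun k => ?_, fun s hs => ?_⟩
    · rw [p2_add, h1, h3, add_zero]
    · rw [p1_add, h2 s hs, h4 s hs, add_zero]
  zero_mem' := ⟨fun _ => rfl, fun _ _ => rfl⟩
  smul_mem' := by
    rintro r x ⟨h1, h2⟩
    refine ⟨fun k => ?_, fun s hs => ?_⟩
    · show r * p2 x k = 0
      rw [h1, mul_zero]
    · show r * p1 x s = 0
      rw [h2 s hs, mul_zero]

lemma mem_In {n : ℕ} {x : RE} : x ∈ In n ↔
    (∀ k, p2 x k = 0) ∧ ∀ s : I, (s : ℝ) * ((n : ℝ) + 1) ≤ 1 → p1 x s = 0 := Iff.rfl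

lemma closed_In (n : ℕ) : IsClosedIdeal (In n) where
  isClosed := by
    have h : ((In n : Submodule ℝ RE) : Set RE) = (⋂ k, {x | p2 x k = 0}) ∩
        (⋂ s : I, ⋂ _ : (s : ℝ) * ((n : ℝ) + 1) ≤ 1, {x | p1 x s = 0}) := by
      ext x
      simp only [SetLike.mem_coe, mem_In, Set.mem_inter_iff, Set.mem_iInter, Set.mem_ofPred_eq]
    rw [h]
    apply IsClosed.inter
    · exact isClosed_iInter fun k => isClosed_eq (cont_p2 k) continuous_const
    · exact isClosed_iInter fun s => isClosed_iInter fun _ =>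
        isClosed_eq (cont_p1 s) continuous_const
  solid a b ha hb := by
    rw [mem_In] at ha ⊢
    refine ⟨fun k => ?_, fun s hs => ?_⟩
    · have h1 : |p2 b k| ≤ |p2 a k| := hb.2 k
      rw [ha.1 k, abs_zero] at h1
      exact abs_nonpos_iff.1 h1
    · have h1 : |p1 b s| ≤ |p1 a s| := hb.1 s
      rw [ha.2 s hs, abs_zero] at h1
      exact abs_nonpos_iff.1 h1

lemma mono_In : Monotone In := by
  intro m n hmn x hx
  rw [mem_In] at hx ⊢
  refine ⟨hx.1, fun s hs => hx.2 s ?_⟩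
  have h1 : (m : ℝ) ≤ n := by exact_mod_cast hmn
  have h2 : (0 : ℝ) ≤ s := s.2.1
  nlinarith

lemma mem_closure_facts {x : RE} (hx : x ∈ (⨆ n, In n).topologicalClosure) :
    (∀ k, p2 x k = 0) ∧ p1 x 0 = 0 := by
  have hsub : ((⨆ n, In n : Submodule ℝ RE) : Set RE) ⊆
      (⋂ k, {x | p2 x k = 0}) ∩ {x | p1 x 0 = 0} := by
    intro y hy
    have hy' : y ∈ (⨆ n, In n : Submodule ℝ RE) := hy
    rw [Submodule.mem_iSup_of_directed In mono_In.directed_le] at hy'
    obtain ⟨n, hn⟩ := hy'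
    rw [mem_In] at hn
    simp only [Set.mem_inter_iff, Set.mem_iInter, Set.mem_ofPred_eq]
    refine ⟨hn.1, hn.2 0 ?_⟩
    simp
  have hcl : IsClosed ((⋂ k, {x : RE | p2 x k = 0}) ∩ {x | p1 x 0 = 0}) :=
    (isClosed_iInter fun k => isClosed_eq (cont_p2 k) continuous_const).inter
      (isClosed_eq (cont_p1 0) continuous_const)
  have h := closure_minimal hsub hcl hx
  simp only [Set.mem_inter_iff, Set.mem_iInter, Set.mem_ofPred_eq] at h
  exact h

/-- the map `(c, t) ↦ (const t, c)` -/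
noncomputable def S0 : (L1 × ℝ) →ₗ[ℝ] RE where
  toFun p := mkRE (ContinuousMap.const I p.2) p.1
  map_add' _ _ := rfl
  map_smul' _ _ := rfl

lemma S0_p1 (p : L1 × ℝ) (s : I) : p1 (S0 p) s = p.2 := rfl
lemma S0_p2 (p : L1 × ℝ) (k : ℕ) : p2 (S0 p) k = p.1 k := rfl

lemma S0_abs (p : L1 × ℝ) : S0 |p| = |S0 p| := rfl

/-- the bounded operator -/
noncomputable def SL : (L1 × ℝ) →L[ℝ] RE :=
  S0.mkContinuous 2 (by
    intro p
    have h1 : ‖S0 p‖ ≤ 2 * @norm F0 _ (S0 p) := NN_le_two _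
    refine h1.trans ?_
    have h2 : @norm F0 _ (S0 p) ≤ ‖p‖ := by
      show max ‖(ContinuousMap.const I p.2 : C(I, ℝ))‖ ‖p.1‖ ≤ ‖p‖
      apply max_le
      · rw [ContinuousMap.norm_le _ (norm_nonneg _)]
        intro s
        exact norm_snd_le p
      · exact norm_fst_le p
    linarith)

lemma SL_apply (p : L1 × ℝ) : SL p = S0 p := rfl

/-- cut-off function -/
noncomputable def hM (M : ℕ) : C(I, ℝ) :=
  ⟨fun s => max 0 (min 1 (2 - 2 * ((M : ℝ) + 1) * (s : ℝ))), by fun_prop⟩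

lemma hM_apply (M : ℕ) (s : I) :
    hM M s = max 0 (min 1 (2 - 2 * ((M : ℝ) + 1) * (s : ℝ))) := rfl

lemma hM_nonneg (M : ℕ) (s : I) : 0 ≤ hM M s := le_max_left _ _

lemma hM_le_one (M : ℕ) (s : I) : hM M s ≤ 1 := max_le zero_le_one (min_le_left _ _)

lemma norm_quot_le (p : L1 × ℝ) :
    ‖((⨆ n, In n).topologicalClosure).mkQ (S0 p)‖ ≤ ‖p‖ := by
  apply le_of_forall_pos_le_add
  intro ε hε
  have hsum := (L1_summable p.1).tendsto_atTop_zero
  obtain ⟨M, hM'⟩ := (Metric.tendsto_atTop.1 hsum) ε hε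
  have hMk : ∀ k, M ≤ k → |p.1 k| ≤ ε := by
    intro k hk
    have := hM' k hk
    rw [Real.dist_eq, sub_zero, abs_abs] at this
    exact this.le
  let y : RE := mkRE (p.2 • hM M) p.1
  have hy1 : ∀ s, p1 y s = p.2 * hM M s := fun s => rfl
  have hy2 : ∀ k, p2 y k = p.1 k := fun k => rfl
  have hmem : S0 p - y ∈ In (2 * M + 1) := by
    rw [mem_In]
    refine ⟨fun k => ?_, fun s hs => ?_⟩
    · rw [p2_sub, S0_p2, hy2, sub_self]
    · rw [p1_sub, S0_p1, hy1, hM_apply]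
      have h1 : (1 : ℝ) ≤ 2 - 2 * ((M : ℝ) + 1) * (s : ℝ) := by
        push_cast at hs
        nlinarith
      rw [min_eq_left h1, max_eq_right zero_le_one, mul_one, sub_self]
  have hmem2 : S0 p - y ∈ (⨆ n, In n).topologicalClosure :=
    ((le_iSup In (2 * M + 1)).trans (Submodule.le_topologicalClosure _)) hmem
  have hmk : ((⨆ n, In n).topologicalClosure).mkQ (S0 p) =
      ((⨆ n, In n).topologicalClosure).mkQ y := by
    have : ((⨆ n, In n).topologicalClosure).mkQ (S0 p - y) = 0 :=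
      (Submodule.Quotient.mk_eq_zero _).2 hmem2
    rwa [map_sub, sub_eq_zero] at this
  rw [hmk]
  refine (Submodule.Quotient.norm_mk_le _ y).trans ?_
  rw [RE_norm]
  have hp1 : ‖p.1‖ ≤ ‖p‖ := norm_fst_le p
  have hp2 : |p.2| ≤ ‖p‖ := norm_snd_le p
  apply NN_le
  · show max ‖(p.2 • hM M : C(I, ℝ))‖ ‖p.1‖ ≤ ‖p‖ + ε
    apply max_le
    · rw [ContinuousMap.norm_le _ (by positivity)]
      intro s
      show |p.2 * hM M s| ≤ _
      rw [abs_mul, abs_of_nonneg (hM_nonneg M s)]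
      have := mul_le_mul_of_nonneg_left (hM_le_one M s) (abs_nonneg p.2)
      linarith
    · linarith
  · intro q
    show |p.2 * hM M q.1.1| + |p.1 q.1.2| ≤ ‖p‖ + ε
    rcases lt_or_ge q.1.2 M with hk | hk
    · have hq := q.2
      have h1 : ((q.1.2 : ℕ) : ℝ) + 1 ≤ (M : ℝ) := by exact_mod_cast hk
      have h0 : (0 : ℝ) ≤ (q.1.1 : ℝ) := q.1.1.2.1
      have h2 : (2 : ℝ) - 2 * ((M : ℝ) + 1) * (q.1.1 : ℝ) ≤ 0 := by nlinarith
      have h3 : hM M q.1.1 = 0 := by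
        rw [hM_apply]
        apply max_eq_left
        exact (min_le_right _ _).trans h2
      rw [h3, mul_zero, abs_zero, zero_add]
      have := L1_apply_le p.1 q.1.2
      linarith
    · rw [abs_mul, abs_of_nonneg (hM_nonneg M _)]
      have h4 := mul_le_mul_of_nonneg_left (hM_le_one M q.1.1) (abs_nonneg p.2)
      have h5 := hMk _ hk
      linarith

/-- The `ℓ_∞`-sum of `ℓ¹` and `ℝ` is not semiprojective. -/
theorem not_semiprojective : ¬ Semiprojective (L1 × ℝ) := by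
  intro hsemi'
  have hsemi := L_of_semiprojective hsemi'
  let φ : (L1 × ℝ) →L[ℝ] RE ⧸ (⨆ n, In n).topologicalClosure :=
    ((⨆ n, In n).topologicalClosure).mkQL ∘L SL
  have hφ : IsLatticeHomToQuotient (⨆ n, In n).topologicalClosure φ :=
    isLatticeHomToQuotient_comp (closure_ideal closed_In mono_In) φ S0 (fun a => rfl) S0_abs
  have hφ1 : ‖φ‖ ≤ 1 := by
    apply ContinuousLinearMap.opNorm_le_bound _ zero_le_one
    intro p
    rw [one_mul]
    exact norm_quot_le p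
  obtain ⟨n, hn⟩ := hsemi RE In closed_In mono_In φ hφ hφ1
  obtain ⟨ψ, hψ, hψn, hψφ⟩ := hn (1 / 2) (by norm_num)
  -- representatives
  have hrep : ∀ a : L1 × ℝ, 0 ≤ a → ∃ x : RE, 0 ≤ x ∧ ψ a = (In n).mkQ x ∧
      S0 a - x ∈ (⨆ n, In n).topologicalClosure := by
    intro a ha
    obtain ⟨x, hx⟩ := Submodule.mkQ_surjective (In n) (ψ a)
    have h1 := hψ a x hx.symm
    rw [abs_of_nonneg ha] at h1
    refine ⟨|x|, abs_nonneg x, h1, ?_⟩
    have h2 : φ a = ((⨆ n, In n).topologicalClosure).mkQ |x| := hψφ a |x| h1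
    have h3 : ((⨆ n, In n).topologicalClosure).mkQ (S0 a) =
      ((⨆ n, In n).topologicalClosure).mkQ |x| := h2
    rw [← sub_eq_zero, ← map_sub] at h3
    exact (Submodule.Quotient.mk_eq_zero _).1 h3
  obtain ⟨x0, hx00, hx0ψ, hx0S⟩ := hrep ((0 : L1), (1 : ℝ)) ⟨le_refl (0 : L1), zero_le_one⟩
  have hx01 : p1 x0 0 = 1 := by
    have h1 := (mem_closure_facts hx0S).2
    rw [p1_sub, S0_p1] at h1
    show p1 x0 0 = 1
    linarith
  -- points 1/(k+1)
  let pt : ℕ → I := fun k => ⟨1 / ((k : ℝ) + 1), by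
    constructor
    · positivity
    · rw [div_le_one (by positivity)]
      linarith [(Nat.cast_nonneg k : (0 : ℝ) ≤ k)]⟩
  have hpt : Filter.Tendsto pt Filter.atTop (𝓝 0) := by
    rw [tendsto_subtype_rng]
    exact tendsto_one_div_add_atTop_nhds_zero_nat
  have hlim : Filter.Tendsto (fun k => p1 x0 (pt k)) Filter.atTop (𝓝 1) := by
    have := ((p1 x0).continuous.tendsto 0).comp hpt
    rw [hx01] at this
    exact this
  have hev : ∀ᶠ k in Filter.atTop, (3 / 4 : ℝ) < p1 x0 (pt k) :=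
    hlim.eventually (lt_mem_nhds (by norm_num))
  obtain ⟨k, hk1, hk2⟩ := (hev.and (Filter.eventually_ge_atTop n)).exists
  obtain ⟨xk, hxk0, hxkψ, hxkS⟩ := hrep (ev k, (0 : ℝ)) ⟨ev_nonneg k, le_rfl⟩
  have hxkk : p2 xk k = 1 := by
    have h1 := (mem_closure_facts hxkS).1 k
    rw [p2_sub, S0_p2] at h1
    have h2 : (ev k, (0 : ℝ)).1 k = 1 := ev_apply_self k
    rw [h2] at h1
    linarith
  -- the sum
  have hsumψ : ψ (ev k, (1 : ℝ)) = (In n).mkQ (xk + x0) := by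
    rw [map_add, ← hxkψ, ← hx0ψ, ← map_add]
    congr 1
    ext
    · simp
    · simp
  have hnormle : ‖ψ (ev k, (1 : ℝ))‖ ≤ 3 / 2 := by
    have h1 := ψ.le_of_opNorm_le hψn (ev k, (1 : ℝ))
    have h2 : ‖((ev k, (1 : ℝ)) : L1 × ℝ)‖ = 1 := by
      rw [Prod.norm_def]
      show max ‖ev k‖ ‖(1 : ℝ)‖ = 1
      rw [ev_norm, norm_one, max_self]
    rw [h2] at h1
    linarith
  obtain ⟨z, hz, hzn⟩ := Submodule.Quotient.norm_mk_lt (S := In n) (ψ (ev k, (1 : ℝ)))
    (ε := 1 / 8) (by norm_num)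
  have hzmem : z - (xk + x0) ∈ In n := by
    rw [← Submodule.Quotient.mk_eq_zero (In n), Submodule.Quotient.mk_sub]
    rw [hz, hsumψ]
    exact sub_self _
  rw [mem_In] at hzmem
  have hq : (1 : ℝ) ≤ ((k : ℝ) + 1) * ((pt k : I) : ℝ) := by
    show (1 : ℝ) ≤ ((k : ℝ) + 1) * (1 / ((k : ℝ) + 1))
    rw [mul_one_div_cancel (by positivity)]
  have h5 : |p1 z (pt k)| + |p2 z k| ≤ ‖z‖ := gf_le_NN ⟨(pt k, k), hq⟩ z
  have h6 : p1 z (pt k) = p1 xk (pt k) + p1 x0 (pt k) := by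
    have h7 := hzmem.2 (pt k) (by
      show (1 / ((k : ℝ) + 1)) * ((n : ℝ) + 1) ≤ 1
      have : (n : ℝ) ≤ k := by exact_mod_cast hk2
      rw [one_div, inv_mul_le_iff₀ (by positivity)]
      linarith)
    rw [p1_sub, p1_add] at h7
    linarith
  have h8 : p2 z k = p2 xk k + p2 x0 k := by
    have h9 := hzmem.1 k
    rw [p2_sub, p2_add] at h9
    linarith
  have h10 : 0 ≤ p1 xk (pt k) := hxk0.1 (pt k)
  have h11 : 0 ≤ p2 x0 k := hx00.2 k
  have h12 := le_abs_self (p1 z (pt k))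
  have h13 := le_abs_self (p2 z k)
  linarith

theorem main : ∃ (J A B : Type) (_ : BanachLattice J) (_ : BanachLattice A)
    (_ : BanachLattice B) (i : J → A) (q : A → B),
    IsShortExact i q ∧ Semiprojective J ∧ Semiprojective B ∧ ¬ Semiprojective A := by
  refine ⟨L1, L1 × ℝ, ℝ, inferInstance, inferInstance, inferInstance,
    fun x => (x, 0), fun a => a.2, ?_, semiprojective_L1,
    semiprojective_real, not_semiprojective⟩
  refine ⟨⟨?_, ?_, ?_⟩, ⟨?_, ?_, ?_⟩, ?_, ?_, ?_, ?_⟩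
  · intro x y
    show ((x + y, (0 : ℝ)) : L1 × ℝ) = (x + y, 0 + 0)
    rw [add_zero]
  · intro r x
    show ((r • x, (0 : ℝ)) : L1 × ℝ) = (r • x, r • 0)
    rw [smul_zero]
  · intro x
    show ((|x|, (0 : ℝ)) : L1 × ℝ) = (|x|, |(0 : ℝ)|)
    rw [abs_zero]
  · intro a b
    rfl
  · intro r a
    rfl
  · intro a
    rfl
  · intro x
    show max ‖x‖ ‖(0 : ℝ)‖ = ‖x‖
    rw [norm_zero]
    exact max_eq_left (norm_nonneg x)
  · intro b
    exact ⟨(0, b), rfl⟩
  · intro a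
    constructor
    · intro h
      refine ⟨a.1, ?_⟩
      show ((a.1, (0 : ℝ)) : L1 × ℝ) = a
      have : a.2 = 0 := h
      rw [← this]
    · rintro ⟨x, rfl⟩
      rfl
  · intro a
    show ‖a.2‖ = ⨅ x : L1, ‖((a.1 + x, a.2 + 0) : L1 × ℝ)‖
    apply le_antisymm
    · apply le_ciInf
      intro x
      have := norm_snd_le ((a.1 + x, a.2 + 0) : L1 × ℝ)
      rwa [add_zero] at this ⊢
    · have hb : BddBelow (Set.range fun x : L1 => ‖((a.1 + x, a.2 + 0) : L1 × ℝ)‖) :=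
        ⟨0, by rintro _ ⟨x, rfl⟩; exact norm_nonneg _⟩
      refine (ciInf_le hb (-a.1)).trans ?_
      rw [add_neg_cancel, add_zero]
      show max ‖(0 : L1)‖ ‖a.2‖ ≤ ‖a.2‖
      rw [norm_zero]
      exact max_le (norm_nonneg _) le_rfl

end Pool.Agent.Helper43.BL
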