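import Pool.Agent.Helper43.BL.Defs

namespace Pool.Agent.Helper43.BL

/-- `T : A → E / J` is a lattice homomorphism into the quotient Banach lattice `E / J` (the modulus
of the class of `x` is the class of `|x|`). -/
def IsLatticeHomToQuotient {A E : Type} [BanachLattice A] [BanachLattice E]
    (J : Submodule ℝ E) (T : A →L[ℝ] E ⧸ J) : Prop :=
  ∀ (a : A) (x : E), T a = J.mkQ x → T |a| = J.mkQ |x|

/-- operator version of semiprojectivity -/
def SemiprojectiveL (A : Type) [BanachLattice A] : Prop :=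
  ∀ (E : Type) [BanachLattice E] [TopologicalSpace.SeparableSpace E] (I : ℕ → Submodule ℝ E),
    (∀ n, IsClosedIdeal (I n)) → Monotone I →
    ∀ φ : A →L[ℝ] E ⧸ (⨆ n, I n).topologicalClosure,
      IsLatticeHomToQuotient (⨆ n, I n).topologicalClosure φ → ‖φ‖ ≤ 1 →
      ∃ n, ∀ ε : ℝ, 0 < ε → ∃ ψ : A →L[ℝ] E ⧸ I n,
        IsLatticeHomToQuotient (I n) ψ ∧ ‖ψ‖ ≤ 1 + ε ∧
        ∀ (a : A) (x : E), ψ a = (I n).mkQ x → φ a = (⨆ n, I n).topologicalClosure.mkQ x

/-- the bounded operator attached to a homomorphism into a quotient -/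
noncomputable def toCLM {A E : Type} [BanachLattice A] [BanachLattice E] {J : Submodule ℝ E}
    {C : ℝ} {T : A → E ⧸ J} (hT : IsQuotientHom J C T) : A →L[ℝ] E ⧸ J :=
  LinearMap.mkContinuous
    { toFun := T
      map_add' := hT.map_add
      map_smul' := hT.map_smul } C hT.norm_le

lemma toCLM_apply {A E : Type} [BanachLattice A] [BanachLattice E] {J : Submodule ℝ E}
    {C : ℝ} {T : A → E ⧸ J} (hT : IsQuotientHom J C T) (a : A) : toCLM hT a = T a := rfl

lemma toCLM_hom {A E : Type} [BanachLattice A] [BanachLattice E] {J : Submodule ℝ E}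
    {C : ℝ} {T : A → E ⧸ J} (hT : IsQuotientHom J C T) : IsLatticeHomToQuotient J (toCLM hT) :=
  fun a x h => hT.map_abs a x h

lemma toCLM_norm {A E : Type} [BanachLattice A] [BanachLattice E] {J : Submodule ℝ E}
    {C : ℝ} (hC : 0 ≤ C) {T : A → E ⧸ J} (hT : IsQuotientHom J C T) : ‖toCLM hT‖ ≤ C :=
  LinearMap.mkContinuous_norm_le _ hC _

lemma isQuoHom_of_CLM {A E : Type} [BanachLattice A] [BanachLattice E] {J : Submodule ℝ E}
    {C : ℝ} (T : A →L[ℝ] E ⧸ J) (h : IsLatticeHomToQuotient J T) (hC : ‖T‖ ≤ C) :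
    IsQuotientHom J C (fun a => T a) where
  map_add a b := T.map_add a b
  map_smul r a := T.map_smul r a
  map_abs a x hx := h a x hx
  norm_le a := T.le_of_opNorm_le hC a

theorem semiprojective_of_L {A : Type} [BanachLattice A] (h : SemiprojectiveL A) :
    Semiprojective A := by
  intro E _ _ I hI hmono φ hφ
  obtain ⟨n, hn⟩ := h E I hI hmono (toCLM hφ) (toCLM_hom hφ) (toCLM_norm zero_le_one hφ)
  refine ⟨n, fun ε hε => ?_⟩
  obtain ⟨ψ, h1, h2, h3⟩ := hn ε hε
  exact ⟨fun a => ψ a, isQuoHom_of_CLM ψ h1 h2, fun a x hx => h3 a x hx⟩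

theorem L_of_semiprojective {A : Type} [BanachLattice A] (h : Semiprojective A) :
    SemiprojectiveL A := by
  intro E _ _ I hI hmono φ hφ hφ1
  obtain ⟨n, hn⟩ := h E I hI hmono (fun a => φ a) (isQuoHom_of_CLM φ hφ hφ1)
  refine ⟨n, fun ε hε => ?_⟩
  obtain ⟨ψ, h1, h2⟩ := hn ε hε
  exact ⟨toCLM h1, toCLM_hom h1, toCLM_norm (by linarith) h1, fun a x hx => h2 a x hx⟩

end Pool.Agent.Helper43.BL
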