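import Pool.Agent.Helper43.BL.Basic

open scoped ENNReal Topology

namespace Pool.Agent.Helper43.BL

variable {E : Type} [BanachLattice E]

/-- unit vectors of ℓ¹ -/
noncomputable def ev (k : ℕ) : L1 := lp.single 1 k (1 : ℝ)

lemma ev_apply_self (k : ℕ) : ev k k = 1 := lp.single_apply_self _ _ _

lemma ev_apply_ne {k j : ℕ} (h : j ≠ k) : ev k j = 0 := lp.single_apply_ne _ _ _ h

lemma ev_norm (k : ℕ) : ‖ev k‖ = 1 := by
  unfold ev
  rw [lp.norm_single (by norm_num)]
  exact norm_one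

lemma ev_nonneg (k : ℕ) : 0 ≤ ev k := by
  intro n
  show (0 : ℝ) ≤ ev k n
  by_cases h : n = k
  · subst h; rw [ev_apply_self]; norm_num
  · rw [ev_apply_ne h]

lemma ev_abs (k : ℕ) : |ev k| = ev k := abs_of_nonneg (ev_nonneg k)

lemma ev_abs_sub {i k : ℕ} (h : i ≠ k) : |ev i - ev k| = ev i + ev k := by
  apply lp.ext
  funext n
  show |ev i n - ev k n| = ev i n + ev k n
  by_cases h1 : n = i
  · have h2 : n ≠ k := fun h2 => h (h1.symm.trans h2)
    rw [h1, ev_apply_self, ev_apply_ne h]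
    norm_num
  · by_cases h2 : n = k
    · rw [h2, ev_apply_self, ev_apply_ne (fun h3 => h1 (h2.trans h3))]
      norm_num
    · rw [ev_apply_ne h1, ev_apply_ne h2]
      norm_num

section Lift

variable (z : ℕ → E) (C : ℝ) (hz : ∀ k, ‖z k‖ ≤ C)

include hz in
lemma lift_summable_norm (c : L1) : Summable fun k => ‖c k • z k‖ := by
  refine Summable.of_nonneg_of_le (fun k => norm_nonneg _) (fun k => ?_)
    ((L1_summable c).mul_right C)
  rw [norm_smul]
  exact mul_le_mul_of_nonneg_left (hz k) (norm_nonneg _)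

include hz in
lemma lift_summable (c : L1) : Summable fun k => c k • z k :=
  (lift_summable_norm z C hz c).of_norm

/-- the operator `c ↦ ∑ c_k z_k` -/
noncomputable def liftOp : L1 →L[ℝ] E :=
  LinearMap.mkContinuous
    { toFun := fun c => ∑' k, c k • z k
      map_add' := by
        intro c d
        rw [← (lift_summable z C hz c).tsum_add (lift_summable z C hz d)]
        congr 1
        funext k
        rw [← add_smul]
        rfl
      map_smul' := by
        intro r c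
        rw [RingHom.id_apply, ← (lift_summable z C hz c).tsum_const_smul r]
        congr 1
        funext k
        rw [smul_smul]
        rfl } C (by
      intro c
      show ‖∑' k, c k • z k‖ ≤ C * ‖c‖
      refine (norm_tsum_le_tsum_norm (lift_summable_norm z C hz c)).trans ?_
      rw [L1_norm, mul_comm, ← tsum_mul_right]
      refine (lift_summable_norm z C hz c).tsum_le_tsum (fun k => ?_)
        ((L1_summable c).mul_right C)
      rw [norm_smul]
      exact mul_le_mul_of_nonneg_left (hz k) (norm_nonneg _))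

lemma liftOp_apply (c : L1) : liftOp z C hz c = ∑' k, c k • z k := rfl

lemma liftOp_hasSum (c : L1) : HasSum (fun k => c k • z k) (liftOp z C hz c) :=
  (lift_summable z C hz c).hasSum

lemma liftOp_norm : ‖liftOp z C hz‖ ≤ C := by
  apply LinearMap.mkContinuous_norm_le
  exact le_trans (norm_nonneg _) (hz 0)

lemma liftOp_ev (k : ℕ) : liftOp z C hz (ev k) = z k := by
  rw [liftOp_apply, tsum_eq_single k]
  · rw [ev_apply_self, one_smul]
  · intro j hj
    rw [ev_apply_ne hj, zero_smul]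

lemma liftOp_nonneg (h0 : ∀ k, 0 ≤ z k) {c : L1} (hc : 0 ≤ c) : 0 ≤ liftOp z C hz c := by
  apply (liftOp_hasSum z C hz c).nonneg
  intro k
  exact BanachLattice.smul_nonneg' _ _ (hc k) (h0 k)

lemma liftOp_abs (h0 : ∀ k, 0 ≤ z k) (hd : ∀ i k, i ≠ k → z i ⊓ z k = 0) (c : L1) :
    liftOp z C hz |c| = |liftOp z C hz c| := by
  have hp : 0 ≤ c ⊔ 0 := le_sup_right
  have hn : 0 ≤ (-c) ⊔ 0 := le_sup_right
  set a := liftOp z C hz (c ⊔ 0) with ha
  set b := liftOp z C hz ((-c) ⊔ 0) with hb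
  have ha0 : 0 ≤ a := liftOp_nonneg z C hz h0 hp
  have hb0 : 0 ≤ b := liftOp_nonneg z C hz h0 hn
  have hab : a ⊓ b = 0 := by
    apply inf_hasSum_zero ha0 (liftOp_hasSum z C hz _)
    · intro k
      exact BanachLattice.smul_nonneg' _ _ (hn k) (h0 k)
    · intro k
      rw [inf_comm]
      apply inf_hasSum_zero (BanachLattice.smul_nonneg' _ _ (hn k) (h0 k))
        (liftOp_hasSum z C hz _)
      · intro i
        exact BanachLattice.smul_nonneg' _ _ (hp i) (h0 i)
      · intro i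
        show (((-c) ⊔ 0 : L1) k • z k) ⊓ ((c ⊔ 0 : L1) i • z i) = 0
        by_cases hik : i = k
        · subst hik
          have e1 : ((-c) ⊔ 0 : L1) i = (-(c i)) ⊔ 0 := rfl
          have e2 : (c ⊔ 0 : L1) i = (c i) ⊔ 0 := rfl
          rcases le_total 0 (c i) with h | h
          · rw [e1, sup_eq_right.2 (neg_nonpos.2 h), zero_smul]
            exact inf_eq_left.2 (BanachLattice.smul_nonneg' _ _ (hp i) (h0 i))
          · rw [e2, sup_eq_right.2 h, zero_smul]
            exact inf_eq_right.2 (BanachLattice.smul_nonneg' _ _ (hn i) (h0 i))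
        · have h1 : z k ⊓ z i ∈ (⊥ : Submodule ℝ E) := by
            rw [Submodule.mem_bot]; exact hd k i (fun h => hik h.symm)
          have h2 := inf_smul_mem bot_closedIdeal (h0 k) (h0 i) h1 (hp i)
          have h3 : 0 ≤ (c ⊔ 0 : L1) i • z i := BanachLattice.smul_nonneg' _ _ (hp i) (h0 i)
          rw [inf_comm] at h2
          have h4 := inf_smul_mem bot_closedIdeal h3 (h0 k) h2 (hn k)
          rw [inf_comm, Submodule.mem_bot] at h4
          exact h4
  have hc : c = (c ⊔ 0) - ((-c) ⊔ 0) := by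
    apply lp.ext
    funext n
    show c n = (c n ⊔ 0) - ((-(c n)) ⊔ 0)
    rcases le_total 0 (c n) with h | h
    · rw [sup_eq_left.2 h, sup_eq_right.2 (neg_nonpos.2 h), sub_zero]
    · rw [sup_eq_right.2 h, sup_eq_left.2 (neg_nonneg.2 h), zero_sub, neg_neg]
  have hc2 : |c| = (c ⊔ 0) + ((-c) ⊔ 0) := by
    apply lp.ext
    funext n
    show |c n| = (c n ⊔ 0) + ((-(c n)) ⊔ 0)
    rcases le_total 0 (c n) with h | h
    · rw [sup_eq_left.2 h, sup_eq_right.2 (neg_nonpos.2 h), add_zero, abs_of_nonneg h]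
    · rw [sup_eq_right.2 h, sup_eq_left.2 (neg_nonneg.2 h), zero_add, abs_of_nonpos h]
  have h5 : liftOp z C hz c = a - b := by
    conv_lhs => rw [hc]
    rw [map_sub]
  rw [h5, hc2, map_add, abs_sub_comm, ← sup_sub_inf_eq_abs_sub, hab, sub_zero]
  have := inf_add_sup a b
  rw [hab, zero_add] at this
  exact this.symm

end Lift

/-- disjointification -/
lemma disjointify (K : Submodule ℝ E) (hK : IsClosedIdeal K) (y : ℕ → E) (C : ℝ)
    (hy0 : ∀ k, 0 ≤ y k) (hyC : ∀ k, ‖y k‖ ≤ C) (hyK : ∀ i k, i ≠ k → y i ⊓ y k ∈ K) :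
    ∃ z : ℕ → E, (∀ k, 0 ≤ z k) ∧ (∀ k, ‖z k‖ ≤ C) ∧ (∀ i k, i ≠ k → z i ⊓ z k = 0) ∧
      ∀ k, y k - z k ∈ K := by
  classical
  have hC : 0 ≤ C := le_trans (norm_nonneg _) (hyC 0)
  -- weights
  let w : ℕ → ℕ → E := fun k i => if i = k then 0 else ((2 : ℝ) ^ k * (1 / 2) ^ i) • y i
  have hw0 : ∀ k i, 0 ≤ w k i := by
    intro k i
    show 0 ≤ if i = k then (0 : E) else _
    split_ifs
    · exact le_rfl
    · exact BanachLattice.smul_nonneg' _ _ (by positivity) (hy0 i)
  have hws : ∀ k, Summable (w k) := by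
    intro k
    apply Summable.of_norm
    refine Summable.of_nonneg_of_le (fun i => norm_nonneg _) (fun i => ?_)
      ((summable_geometric_two.mul_left ((2 : ℝ) ^ k)).mul_right C)
    show ‖if i = k then (0 : E) else _‖ ≤ _
    split_ifs
    · rw [norm_zero]; positivity
    · rw [norm_smul, Real.norm_of_nonneg (by positivity)]
      exact mul_le_mul_of_nonneg_left (hyC i) (by positivity)
  let W : ℕ → E := fun k => ∑' i, w k i
  have hW0 : ∀ k, 0 ≤ W k := fun k => (hws k).hasSum.nonneg (hw0 k)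
  have hWle : ∀ k i, w k i ≤ W k := fun k i => (hws k).le_tsum i (fun j _ => hw0 k j)
  let z : ℕ → E := fun k => (y k - W k) ⊔ 0
  have hz0 : ∀ k, 0 ≤ z k := fun k => le_sup_right
  have hzy : ∀ k, z k ≤ y k := fun k => sup_le (sub_le_self _ (hW0 k)) (hy0 k)
  refine ⟨z, hz0, ?_, ?_, ?_⟩
  · intro k
    refine le_trans ?_ (hyC k)
    apply norm_le_norm_of_abs_le_abs
    rw [abs_of_nonneg (hz0 k), abs_of_nonneg (hy0 k)]
    exact hzy k
  · intro i k hik
    -- z i ≤ (y i - s • y k)^+, z k ≤ (y k - s⁻¹ • y i)^+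
    set s : ℝ := (2 : ℝ) ^ i * (1 / 2) ^ k with hs
    have hspos : 0 < s := by positivity
    have hs' : s⁻¹ = (2 : ℝ) ^ k * (1 / 2) ^ i := by
      rw [hs, mul_inv, one_div, inv_pow, inv_inv, inv_pow, mul_comm]
    have h1 : z i ≤ (y i - s • y k) ⊔ 0 := by
      apply sup_le_sup_right
      apply sub_le_sub_left
      have := hWle i k
      have e : w i k = s • y k := by
        show (if k = i then (0 : E) else _) = _
        rw [if_neg (fun h => hik h.symm)]
      rwa [e] at this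
    have h2 : z k ≤ s⁻¹ • ((-(y i - s • y k)) ⊔ 0) := by
      have h3 : s⁻¹ • ((-(y i - s • y k)) ⊔ 0) = (y k - s⁻¹ • y i) ⊔ 0 := by
        rw [smul_sup (inv_nonneg.2 hspos.le), smul_zero, neg_sub, smul_sub, smul_smul,
          inv_mul_cancel₀ hspos.ne', one_smul]
      rw [h3]
      apply sup_le_sup_right
      apply sub_le_sub_left
      have := hWle k i
      have e : w k i = s⁻¹ • y i := by
        show (if i = k then (0 : E) else _) = _
        rw [if_neg hik, hs']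
      rwa [e] at this
    set x := y i - s • y k with hx
    have hdis : (x ⊔ 0) ⊓ ((-x) ⊔ 0) = 0 := by
      have h5 : (-x) ⊔ 0 = (x ⊔ 0) - x := by
        rw [sup_sub, sub_self, zero_sub, sup_comm]
      rw [h5]
      have h6 : (x ⊔ 0) ⊓ ((x ⊔ 0) - x) = (x ⊔ 0) + (0 ⊓ (-x)) := by
        rw [add_inf, add_zero, sub_eq_add_neg]
      rw [h6]
      have h7 : (0 : E) ⊓ (-x) = -(x ⊔ 0) := by
        rw [neg_sup, neg_zero, inf_comm]
      rw [h7, add_neg_cancel]
    have h8 : (x ⊔ 0) ⊓ (s⁻¹ • ((-x) ⊔ 0)) = 0 := by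
      have h9 := inf_smul_mem bot_closedIdeal (le_sup_right : (0 : E) ≤ x ⊔ 0)
        (le_sup_right : (0 : E) ≤ (-x) ⊔ 0) (by rw [Submodule.mem_bot]; exact hdis)
        (inv_nonneg.2 hspos.le)
      rwa [Submodule.mem_bot] at h9
    apply le_antisymm
    · calc z i ⊓ z k ≤ (x ⊔ 0) ⊓ (s⁻¹ • ((-x) ⊔ 0)) := inf_le_inf h1 h2
        _ = 0 := h8
    · exact le_inf (hz0 i) (hz0 k)
  · intro k
    have h1 : y k - z k = y k ⊓ W k := by
      show y k - ((y k - W k) ⊔ 0) = y k ⊓ W k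
      rw [sub_sup, sub_sub_cancel, sub_zero, inf_comm]
    rw [h1]
    apply inf_hasSum_mem hK (hy0 k) (hws k).hasSum (hw0 k)
    intro i
    show y k ⊓ (if i = k then (0 : E) else _) ∈ K
    split_ifs with h
    · rw [inf_eq_right.2 (hy0 k)]
      exact K.zero_mem
    · exact inf_smul_mem hK (hy0 k) (hy0 i) (hyK k i (fun h' => h h'.symm)) (by positivity)

theorem lift_L1 {K : Submodule ℝ E} (hK : IsClosedIdeal K) (φ : L1 →L[ℝ] E ⧸ K)
    (hφ : IsLatticeHomToQuotient K φ) (hφ1 : ‖φ‖ ≤ 1) {ε : ℝ} (hε : 0 < ε) :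
    ∃ ψ0 : L1 →L[ℝ] E, ‖ψ0‖ ≤ 1 + ε ∧ (∀ c, ψ0 |c| = |ψ0 c|) ∧ ∀ c, φ c = K.mkQ (ψ0 c) := by
  have : IsClosed (K : Set E) := hK.isClosed
  -- choose positive representatives
  have hex : ∀ k, ∃ y : E, 0 ≤ y ∧ φ (ev k) = K.mkQ y ∧ ‖y‖ ≤ 1 + ε := by
    intro k
    obtain ⟨y, hy, hyn⟩ := Submodule.Quotient.norm_mk_lt (S := K) (φ (ev k)) hε
    refine ⟨|y|, abs_nonneg _, ?_, ?_⟩
    · have := hφ (ev k) y hy.symm
      rwa [ev_abs] at this
    · rw [norm_abs_eq_norm]
      have h1 : ‖φ (ev k)‖ ≤ 1 := by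
        have := φ.le_of_opNorm_le hφ1 (ev k)
        rwa [ev_norm, mul_one] at this
      linarith
  choose y hy0 hymk hyn using hex
  have hyK : ∀ i k, i ≠ k → y i ⊓ y k ∈ K := by
    intro i k hik
    have h1 : φ (ev i - ev k) = K.mkQ (y i - y k) := by
      rw [map_sub, map_sub, hymk, hymk]
    have h2 := hφ _ _ h1
    rw [ev_abs_sub hik, map_add, hymk, hymk, ← map_add] at h2
    have h3 : (y i + y k) - |y i - y k| ∈ K := by
      rw [← Submodule.Quotient.mk_eq_zero K]
      have : K.mkQ ((y i + y k) - |y i - y k|) = 0 := by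
        rw [map_sub, h2, sub_self]
      exact this
    have h4 : (y i + y k) - |y i - y k| = (2 : ℝ) • (y i ⊓ y k) := by
      rw [abs_sub_comm, ← sup_sub_inf_eq_abs_sub, ← inf_add_sup (y i) (y k), two_smul]
      abel
    rw [h4] at h3
    have h5 := K.smul_mem ((2 : ℝ)⁻¹) h3
    rwa [smul_smul, inv_mul_cancel₀ (two_ne_zero), one_smul] at h5
  obtain ⟨z, hz0, hzC, hzd, hzK⟩ := disjointify K hK y (1 + ε) hy0 hyn hyK
  let ψ0 := liftOp z (1 + ε) hzC
  refine ⟨ψ0, liftOp_norm _ _ _, liftOp_abs _ _ _ hz0 hzd, ?_⟩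
  have hcl : φ = (K.mkQL) ∘L ψ0 := by
    apply lp.ext_continuousLinearMap (by norm_num)
    intro k
    ext
    show φ (ev k) = K.mkQ (ψ0 (ev k))
    rw [hymk]
    have : ψ0 (ev k) = z k := liftOp_ev _ _ _ _
    rw [this]
    have h1 : K.mkQ (y k - z k) = 0 := (Submodule.Quotient.mk_eq_zero K).2 (hzK k)
    rw [map_sub, sub_eq_zero] at h1
    exact h1
  intro c
  exact congrArg (fun T : L1 →L[ℝ] E ⧸ K => T c) hcl

/-- A Banach lattice all of whose contractive lattice homomorphisms into quotients lift with norm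
control is semiprojective. -/
theorem semiprojective_of_lift {A : Type} [BanachLattice A]
    (h : ∀ (E : Type) [BanachLattice E] (K : Submodule ℝ E) (_ : IsClosedIdeal K)
      (φ : A →L[ℝ] E ⧸ K) (_ : IsLatticeHomToQuotient K φ) (_ : ‖φ‖ ≤ 1) (ε : ℝ) (_ : 0 < ε),
      ∃ ψ0 : A →L[ℝ] E, ‖ψ0‖ ≤ 1 + ε ∧ (∀ c, ψ0 |c| = |ψ0 c|) ∧ ∀ c, φ c = K.mkQ (ψ0 c)) :
    Semiprojective A := by
  apply semiprojective_of_L
  intro E _ _ I hI hmono φ hφ hφ1
  refine ⟨0, fun ε hε => ?_⟩
  obtain ⟨ψ0, hn, habs, hφψ⟩ := h E _ (closure_ideal hI hmono) φ hφ hφ1 ε hε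
  let ψ : A →L[ℝ] E ⧸ I 0 := ((I 0).mkQL) ∘L ψ0
  refine ⟨ψ, ?_, ?_, ?_⟩
  · exact isLatticeHomToQuotient_comp (hI 0) ψ ψ0 (fun a => rfl) habs
  · apply ContinuousLinearMap.opNorm_le_bound _ (by linarith)
    intro c
    have h1 : ‖ψ c‖ ≤ ‖ψ0 c‖ := Submodule.Quotient.norm_mk_le (I 0) (ψ0 c)
    exact h1.trans (ψ0.le_of_opNorm_le hn c)
  · intro c x hx
    have h1 : ψ0 c - x ∈ I 0 := by
      rw [← Submodule.Quotient.mk_eq_zero (I 0), Submodule.Quotient.mk_sub]
      exact sub_eq_zero.2 hx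
    have h2 : ψ0 c - x ∈ (⨆ n, I n).topologicalClosure :=
      ((le_iSup I 0).trans (Submodule.le_topologicalClosure _)) h1
    rw [hφψ]
    have h4 : (⨆ n, I n).topologicalClosure.mkQ (ψ0 c - x) = 0 :=
      (Submodule.Quotient.mk_eq_zero _).2 h2
    rwa [map_sub, sub_eq_zero] at h4

theorem semiprojective_L1 : Semiprojective L1 :=
  semiprojective_of_lift (fun _ _ _ hK φ hφ hφ1 _ hε => lift_L1 hK φ hφ hφ1 hε)

noncomputable instance : BanachLattice ℝ where
  solid _ _ h := h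
  smul_nonneg' _ _ hr hx := mul_nonneg hr hx

theorem semiprojective_real : Semiprojective ℝ := by
  apply semiprojective_of_lift
  intro E _ K hK φ hφ hφ1 ε hε
  obtain ⟨y, hy, hyn⟩ := Submodule.Quotient.norm_mk_lt (S := K) (φ 1) hε
  have h1 : ‖φ 1‖ ≤ 1 := by
    have := φ.le_of_opNorm_le hφ1 1
    rwa [norm_one, mul_one] at this
  refine ⟨ContinuousLinearMap.toSpanSingleton ℝ |y|, ?_, ?_, ?_⟩
  · rw [ContinuousLinearMap.norm_toSpanSingleton, norm_abs_eq_norm]
    linarith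
  · intro c
    rw [ContinuousLinearMap.toSpanSingleton_apply, ContinuousLinearMap.toSpanSingleton_apply,
      abs_smul', abs_abs]
  · intro c
    have h2 := hφ 1 y hy.symm
    rw [abs_one] at h2
    rw [ContinuousLinearMap.toSpanSingleton_apply, map_smul, ← h2, ← map_smul, smul_eq_mul, mul_one]

end Pool.Agent.Helper43.BL
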