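import Pool.Agent.Helper43.BL.Proj

open scoped ENNReal Topology unitInterval
open TopologicalSpace

namespace Pool.Agent.Helper43.BL

lemma prod_abs {E F : Type} [BanachLattice E] [BanachLattice F] (x : E × F) :
    |x| = (|x.1|, |x.2|) := rfl

noncomputable instance instProd {E F : Type} [BanachLattice E] [BanachLattice F] :
    BanachLattice (E × F) where
  solid x y h := by
    have h1 : |x.1| ≤ |y.1| := h.1
    have h2 : |x.2| ≤ |y.2| := h.2
    rw [Prod.norm_def, Prod.norm_def]
    exact max_le_max (norm_le_norm_of_abs_le_abs h1) (norm_le_norm_of_abs_le_abs h2)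
  smul_nonneg' r x hr hx :=
    ⟨BanachLattice.smul_nonneg' r x.1 hr hx.1, BanachLattice.smul_nonneg' r x.2 hr hx.2⟩

lemma cI_abs_apply (f : C(I, ℝ)) (s : I) : |f| s = |f s| := rfl

noncomputable instance instC : BanachLattice C(I, ℝ) where
  solid f g h := by
    rw [ContinuousMap.norm_le _ (norm_nonneg _)]
    intro s
    have h1 : |f| s ≤ |g| s := h s
    have h2 := g.norm_coe_le_norm s
    rw [Real.norm_eq_abs] at h2 ⊢
    exact (show |f s| ≤ |g s| from h1).trans h2
  smul_nonneg' r f hr hf := by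
    intro s
    show (0 : ℝ) ≤ r * f s
    exact mul_nonneg hr (hf s)

/-! separability of ℓ¹ -/

lemma L1_mem_closure (f : L1) :
    f ∈ closure (Submodule.span ℝ (Set.range ev) : Set L1) := by
  have h := lp.hasSum_single (p := 1) (by norm_num) f
  apply mem_closure_of_tendsto h
  filter_upwards with s
  apply Submodule.sum_mem
  intro i _
  have : lp.single 1 i (f i) = (f i) • ev i := by
    unfold ev
    rw [← lp.single_smul, smul_eq_mul, mul_one]
  rw [this]
  exact Submodule.smul_mem _ _ (Submodule.subset_span ⟨i, rfl⟩)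

instance : SeparableSpace L1 := by
  have h1 : IsSeparable (Set.range ev) := (Set.countable_range ev).isSeparable
  have h2 : IsSeparable (Submodule.span ℝ (Set.range ev) : Set L1) := h1.span (R := ℝ)
  have h3 := h2.closure
  have h4 : closure (Submodule.span ℝ (Set.range ev) : Set L1) = Set.univ :=
    Set.eq_univ_of_forall L1_mem_closure
  rw [h4] at h3
  exact isSeparable_univ_iff.1 h3

/-! the renormed space -/

/-- the underlying Banach lattice `C[0,1] × ℓ¹` -/
abbrev F0 : Type := C(I, ℝ) × L1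

/-- index set: pairs `(s, k)` with `1 ≤ (k+1) s` -/
abbrev Qset : Type := {q : I × ℕ // (1 : ℝ) ≤ ((q.2 : ℝ) + 1) * (q.1 : ℝ)}

/-- coordinate functional -/
noncomputable def gf (q : Qset) (x : F0) : ℝ := |x.1 q.1.1| + |x.2 q.1.2|

lemma L1_apply_le (f : L1) (n : ℕ) : |f n| ≤ ‖f‖ := by
  have := lp.norm_apply_le_norm (p := 1) one_ne_zero f n
  rwa [Real.norm_eq_abs] at this

lemma gf_le (q : Qset) (x : F0) : gf q x ≤ 2 * ‖x‖ := by
  have h1 : |x.1 q.1.1| ≤ ‖x.1‖ := x.1.norm_coe_le_norm q.1.1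
  have h2 : |x.2 q.1.2| ≤ ‖x.2‖ := L1_apply_le _ _
  have h3 : ‖x.1‖ ≤ ‖x‖ := norm_fst_le x
  have h4 : ‖x.2‖ ≤ ‖x‖ := norm_snd_le x
  unfold gf
  linarith

lemma gf_nonneg (q : Qset) (x : F0) : 0 ≤ gf q x := add_nonneg (abs_nonneg _) (abs_nonneg _)

lemma gf_bdd (x : F0) : BddAbove (Set.range fun q => gf q x) :=
  ⟨2 * ‖x‖, by rintro _ ⟨q, rfl⟩; exact gf_le q x⟩

/-- the new norm -/
noncomputable def NN (x : F0) : ℝ := ‖x‖ ⊔ ⨆ q, gf q x

instance : Nonempty Qset := ⟨⟨(1, 0), by simp⟩⟩

lemma norm_le_NN (x : F0) : ‖x‖ ≤ NN x := le_sup_left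

lemma gf_le_NN (q : Qset) (x : F0) : gf q x ≤ NN x :=
  (le_ciSup (gf_bdd x) q).trans le_sup_right

lemma NN_le {x : F0} {c : ℝ} (h1 : ‖x‖ ≤ c) (h2 : ∀ q, gf q x ≤ c) : NN x ≤ c :=
  sup_le h1 (ciSup_le h2)

lemma NN_le_two (x : F0) : NN x ≤ 2 * ‖x‖ :=
  NN_le (by linarith [norm_nonneg x]) (fun q => gf_le q x)

lemma NN_add (x y : F0) : NN (x + y) ≤ NN x + NN y := by
  apply NN_le
  · exact (norm_add_le x y).trans (add_le_add (norm_le_NN x) (norm_le_NN y))
  · intro q
    have h1 : gf q (x + y) ≤ gf q x + gf q y := by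
      unfold gf
      have e1 : (x + y).1 q.1.1 = x.1 q.1.1 + y.1 q.1.1 := rfl
      have e2 : (x + y).2 q.1.2 = x.2 q.1.2 + y.2 q.1.2 := rfl
      rw [e1, e2]
      linarith [abs_add_le (x.1 q.1.1) (y.1 q.1.1), abs_add_le (x.2 q.1.2) (y.2 q.1.2)]
    exact h1.trans (add_le_add (gf_le_NN q x) (gf_le_NN q y))

lemma gf_neg (q : Qset) (x : F0) : gf q (-x) = gf q x := by
  unfold gf
  have e1 : (-x).1 q.1.1 = -(x.1 q.1.1) := rfl
  have e2 : (-x).2 q.1.2 = -(x.2 q.1.2) := rfl
  rw [e1, e2, abs_neg, abs_neg]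

lemma NN_neg (x : F0) : NN (-x) = NN x := by
  unfold NN
  simp only [norm_neg, gf_neg]

lemma gf_smul (q : Qset) (r : ℝ) (x : F0) : gf q (r • x) = |r| * gf q x := by
  unfold gf
  have e1 : (r • x).1 q.1.1 = r * (x.1 q.1.1) := rfl
  have e2 : (r • x).2 q.1.2 = r * (x.2 q.1.2) := rfl
  rw [e1, e2, abs_mul, abs_mul]
  ring

lemma NN_smul_le (r : ℝ) (x : F0) : NN (r • x) ≤ |r| * NN x := by
  apply NN_le
  · rw [norm_smul, Real.norm_eq_abs]
    exact mul_le_mul_of_nonneg_left (norm_le_NN x) (abs_nonneg _)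
  · intro q
    rw [gf_smul]
    exact mul_le_mul_of_nonneg_left (gf_le_NN q x) (abs_nonneg _)

lemma NN_mono {x y : F0} (h : |x| ≤ |y|) : NN x ≤ NN y := by
  apply NN_le
  · exact (norm_le_norm_of_abs_le_abs h).trans (norm_le_NN y)
  · intro q
    refine le_trans ?_ (gf_le_NN q y)
    have h1 : |x.1 q.1.1| ≤ |y.1 q.1.1| := h.1 q.1.1
    have h2 : |x.2 q.1.2| ≤ |y.2 q.1.2| := h.2 q.1.2
    unfold gf
    linarith

/-- the renormed space -/
def RE : Type := F0

noncomputable instance : AddCommGroup RE := inferInstanceAs (AddCommGroup F0)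
noncomputable instance : Module ℝ RE := inferInstanceAs (Module ℝ F0)
noncomputable instance : Lattice RE := inferInstanceAs (Lattice F0)
instance : IsOrderedAddMonoid RE := inferInstanceAs (IsOrderedAddMonoid F0)

/-- the norm as an `AddGroupNorm` -/
noncomputable def addGroupNormRE : AddGroupNorm RE where
  toFun x := NN x
  map_zero' := by
    apply le_antisymm
    · have := NN_le_two (0 : F0)
      rw [norm_zero, mul_zero] at this
      exact this
    · exact le_trans (norm_nonneg _) (norm_le_NN _)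
  add_le' x y := NN_add x y
  neg' x := NN_neg x
  eq_zero_of_map_eq_zero' x hx := by
    have h1 : @norm F0 _ x ≤ NN x := norm_le_NN x
    have h2 : @norm F0 _ x ≤ 0 := h1.trans (le_of_eq hx)
    exact norm_le_zero_iff.1 h2

noncomputable instance : NormedAddCommGroup RE := addGroupNormRE.toNormedAddCommGroup

lemma RE_norm (x : RE) : ‖x‖ = NN x := rfl

noncomputable instance : NormedSpace ℝ RE where
  norm_smul_le r x := NN_smul_le r x

/-- the identity map as a linear equivalence -/
noncomputable def idL : F0 ≃ₗ[ℝ] RE where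
  toFun x := x
  invFun x := x
  map_add' _ _ := rfl
  map_smul' _ _ := rfl
  left_inv _ := rfl
  right_inv _ := rfl

/-- the identity map as a continuous linear equivalence -/
noncomputable def idE : F0 ≃L[ℝ] RE :=
  idL.toContinuousLinearEquivOfBounds 2 1
    (fun x => NN_le_two x) (fun x => by
      show @norm F0 _ x ≤ 1 * NN x
      rw [one_mul]
      exact norm_le_NN x)

instance : CompleteSpace RE :=
  (completeSpace_congr (e := idE.toEquiv) idE.isUniformEmbedding).1 inferInstance

instance : SeparableSpace RE :=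
  idE.surjective.denseRange.separableSpace idE.continuous

noncomputable instance : BanachLattice RE where
  solid _ _ h := NN_mono h
  smul_nonneg' r x hr hx := BanachLattice.smul_nonneg' (E := F0) r x hr hx

end Pool.Agent.Helper43.BL
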